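import Pool.Agent.Helper72.AI.Stmts

set_option autoImplicit false

/-! Packet S_exist of MP_870acd_co (helper72): the general existence theorem as a limit. -/

namespace Pool.Agent.Helper83.AI.Exist

open AffInc Set Filter Topology

lemma third (k : Fin 3) : ∃ i j : Fin 3, i ≠ j ∧ i ≠ k ∧ j ≠ k ∧
    (∀ f : Fin 3 → ℝ, ∑ l, f l = f i + f j + f k) ∧ ∀ l, l = i ∨ l = j ∨ l = k := by
  fin_cases k
  · refine ⟨1, 2, by decide, by decide, by decide, fun f => ?_, by decide⟩
    rw [Fin.sum_univ_three]; simp; ring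
  · refine ⟨0, 2, by decide, by decide, by decide, fun f => ?_, by decide⟩
    rw [Fin.sum_univ_three]; simp; ring
  · refine ⟨0, 1, by decide, by decide, by decide, fun f => ?_, by decide⟩
    rw [Fin.sum_univ_three]; simp

lemma bound (X : Fin 3 → ℝ × ℝ) (r : Fin 3 → ℝ) (R : ℝ) (k : Fin 3) (hr0 : ∀ i, 0 ≤ r i)
    (hrh : ∀ i, r i ≤ 1 / 2) (hsum : ∑ i, r i = 1) (hk : 1 / 3 ≤ r k)
    (hY : ∀ i j, i ≠ j → ‖(1 - r i) • X i + r i • X j‖ ≤ R) : ∀ i, ‖X i‖ ≤ 8 * R := by
  have aux : ∀ i j : Fin 3, i ≠ j → r i + r j + r k = 1 → ‖X i‖ ≤ 9 / 2 * R := by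
    intro i j hij hs
    have e : (r k) • X i = (1 - r j) • ((1 - r i) • X i + r i • X j)
        - r i • ((1 - r j) • X j + r j • X i) := by
      have : r k = 1 - r i - r j := by linarith
      rw [this]; module
    have h1 : ‖(r k) • X i‖ ≤ (1 - r j) * R + r i * R := by
      rw [e]
      refine (norm_sub_le _ _).trans ?_
      rw [norm_smul, norm_smul, Real.norm_of_nonneg (show 0 ≤ 1 - r j by linarith [hrh j]),
        Real.norm_of_nonneg (hr0 i)]
      have a1 := hY i j hij
      have a2 := hY j i hij.symm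
      have b1 : (1 - r j) * ‖(1 - r i) • X i + r i • X j‖ ≤ (1 - r j) * R :=
        mul_le_mul_of_nonneg_left a1 (by linarith [hrh j])
      have b2 : r i * ‖(1 - r j) • X j + r j • X i‖ ≤ r i * R :=
        mul_le_mul_of_nonneg_left a2 (hr0 i)
      linarith
    rw [norm_smul, Real.norm_of_nonneg (hr0 k)] at h1
    have hR : 0 ≤ R := (norm_nonneg _).trans (hY i j hij)
    have h2 : 1 / 3 * ‖X i‖ ≤ r k * ‖X i‖ := mul_le_mul_of_nonneg_right hk (norm_nonneg _)
    have h3 : (1 - r j) * R ≤ 1 * R := mul_le_mul_of_nonneg_right (by linarith [hr0 j]) hR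
    have h4 : r i * R ≤ 1 / 2 * R := mul_le_mul_of_nonneg_right (hrh i) hR
    linarith
  obtain ⟨i, j, hij, hik, hjk, hs, hall⟩ := third k
  have hs1 : r i + r j + r k = 1 := by rw [← hs]; exact hsum
  have hXi := aux i j hij hs1
  have hXj := aux j i hij.symm (by linarith)
  have hR : 0 ≤ R := (norm_nonneg _).trans (hY i j hij)
  have hXk : ‖X k‖ ≤ 8 * R := by
    have e : (1 - r k) • X k = ((1 - r k) • X k + r k • X i) - r k • X i := by module
    have h1 : ‖(1 - r k) • X k‖ ≤ R + 1 / 2 * (9 / 2 * R) := by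
      rw [e]
      refine (norm_sub_le _ _).trans ?_
      have a1 := hY k i hik.symm
      have a2 : ‖r k • X i‖ ≤ 1 / 2 * (9 / 2 * R) := by
        rw [norm_smul, Real.norm_of_nonneg (hr0 k)]
        exact mul_le_mul (hrh k) hXi (norm_nonneg _) (by norm_num)
      linarith
    rw [norm_smul, Real.norm_of_nonneg (show 0 ≤ 1 - r k by linarith [hrh k])] at h1
    have h2 : 1 / 2 * ‖X k‖ ≤ (1 - r k) * ‖X k‖ :=
      mul_le_mul_of_nonneg_right (by linarith [hrh k]) (norm_nonneg _)
    linarith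
  intro l
  rcases hall l with h | h | h
  · rw [h]; linarith
  · rw [h]; linarith
  · rw [h]; exact hXk

lemma continuous_det3 : Continuous det3 := by
  unfold det3; fun_prop

/-- a small perturbation of `r` -/
noncomputable def pr (r : Fin 3 → ℝ) (δ : ℝ) (i : Fin 3) : ℝ := (1 - δ) * r i + δ / 3

theorem pf_S_exist (h1 : AffInc.S_approx) (h2 : AffInc.S_inscribed) (h3 : AffInc.S_ears) :
    AffInc.S_exist := by
  intro G r c hG hr0 hrh hsum hc hcr
  -- the sequence
  have hex : ∀ n : ℕ, ∃ X : Fin 3 → ℝ × ℝ,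
      (∀ i j, i ≠ j → (1 - pr r (1 / ((n : ℝ) + 1)) i) • X i + pr r (1 / ((n : ℝ) + 1)) i • X j ∈
        Metric.cthickening (1 / ((n : ℝ) + 1)) G) ∧
      2 * area G ≤ |det3 X| * (c + 2 * (1 / ((n : ℝ) + 1))) := by
    intro n
    obtain ⟨δ, hδ⟩ : ∃ δ : ℝ, δ = 1 / ((n : ℝ) + 1) := ⟨_, rfl⟩
    rw [← hδ]
    have hn : (0 : ℝ) ≤ n := Nat.cast_nonneg n
    have hδ0 : 0 < δ := by rw [hδ]; positivity
    have hδ1 : δ ≤ 1 := by
      rw [hδ, div_le_one (by positivity)]; linarith
    obtain ⟨G', hs', hc', hsub, hth⟩ := h1 G δ hG hδ0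
    have hfig : Fig G' := ⟨hc', hs'.convex, hG.int.mono (interior_mono hsub)⟩
    have hpos : ∀ i, 0 < pr r δ i := by
      intro i
      unfold pr
      have := mul_nonneg (show 0 ≤ 1 - δ by linarith) (hr0 i)
      linarith
    have hsum' : ∑ i, pr r δ i = 1 := by
      have hsum2 := hsum
      rw [Fin.sum_univ_three] at hsum2
      unfold pr
      rw [Fin.sum_univ_three]
      linear_combination (1 - δ) * hsum2
    obtain ⟨X, hX, hXm⟩ := h2 G' (pr r δ) hs' hfig hpos hsum'
    refine ⟨X, ?_, ?_⟩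
    · intro i j hij
      exact hth (hc'.isClosed.frontier_subset (hXm i j hij))
    · have hsq : ∀ i, |pr r δ i ^ 2 - r i ^ 2| ≤ δ / 3 := by
        intro i
        have e : pr r δ i ^ 2 - r i ^ 2 = δ * (1 / 3 - r i) * (pr r δ i + r i) := by
          unfold pr; ring
        have hp1 : pr r δ i ≤ 1 / 2 := by
          unfold pr
          have := mul_le_mul_of_nonneg_left (hrh i) (show 0 ≤ 1 - δ by linarith)
          linarith
        rw [e, abs_mul, abs_mul, abs_of_pos hδ0]
        have a1 : |1 / 3 - r i| ≤ 1 / 3 := by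
          rw [abs_le]; constructor <;> linarith [hr0 i, hrh i]
        have a2 : |pr r δ i + r i| ≤ 1 := by
          rw [abs_le]; constructor <;> linarith [hr0 i, hrh i, hpos i]
        calc δ * |1 / 3 - r i| * |pr r δ i + r i| ≤ δ * (1 / 3) * 1 := by
              gcongr
          _ = δ / 3 := by ring
      have h4 := h3 G' (pr r δ) X (c + 2 * δ) hfig hpos hsum' hX hXm (by linarith) (by
        intro i
        have := hcr i
        rw [Fin.sum_univ_three] at this ⊢
        have b0 := abs_le.1 (hsq 0)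
        have b1 := abs_le.1 (hsq 1)
        have b2 := abs_le.1 (hsq 2)
        have bi := abs_le.1 (hsq i)
        linarith [b0.1, b1.1, b2.1, bi.2])
      have h5 : area G ≤ area G' := area_mono hsub hc'.measure_lt_top
      linarith
  choose X hXm hXa using hex
  -- a bound
  obtain ⟨R, hR⟩ := (hG.cpt.isBounded.cthickening (δ := 1)).subset_closedBall (0 : ℝ × ℝ)
  have hk : ∃ k, 1 / 3 ≤ r k := by
    by_contra hcon
    push Not at hcon
    have := hcon 0
    have := hcon 1
    have := hcon 2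
    rw [Fin.sum_univ_three] at hsum
    linarith
  obtain ⟨k, hk⟩ := hk
  have hbd : ∀ n, X n ∈ Metric.closedBall (0 : Fin 3 → ℝ × ℝ) (8 * R) := by
    intro n
    have hn : (0 : ℝ) ≤ n := Nat.cast_nonneg n
    obtain ⟨δ, hδ⟩ : ∃ δ : ℝ, δ = 1 / ((n : ℝ) + 1) := ⟨_, rfl⟩
    have hδ0 : 0 < δ := by rw [hδ]; positivity
    have hδ1 : δ ≤ 1 := by
      rw [hδ, div_le_one (by positivity)]; linarith
    have hb : ∀ i, ‖X n i‖ ≤ 8 * R := by
      apply bound (X n) (pr r δ) R k
      · intro i
        unfold pr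
        have := mul_nonneg (show 0 ≤ 1 - δ by linarith) (hr0 i)
        linarith
      · intro i
        unfold pr
        have := mul_le_mul_of_nonneg_left (hrh i) (show 0 ≤ 1 - δ by linarith)
        linarith
      · have hsum2 := hsum
        rw [Fin.sum_univ_three] at hsum2
        unfold pr
        rw [Fin.sum_univ_three]
        linear_combination (1 - δ) * hsum2
      · unfold pr
        have := mul_le_mul_of_nonneg_left hk (show 0 ≤ 1 - δ by linarith)
        linarith
      · intro i j hij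
        have h6 := hXm n i j hij
        rw [← hδ] at h6
        have h7 := hR (Metric.cthickening_mono hδ1 G h6)
        simpa using h7
    have hR0 : 0 ≤ 8 * R := (norm_nonneg _).trans (hb 0)
    rw [mem_closedBall_zero_iff]
    exact (pi_norm_le_iff_of_nonneg hR0).2 hb
  obtain ⟨Y, -, φ, hφ, hlim⟩ := (isCompact_closedBall (0 : Fin 3 → ℝ × ℝ) (8 * R)).tendsto_subseq hbd
  have hδlim : Tendsto (fun n : ℕ => 1 / ((φ n : ℝ) + 1)) atTop (𝓝 0) :=
    tendsto_one_div_add_atTop_nhds_zero_nat.comp hφ.tendsto_atTop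
  have hXi : ∀ i, Tendsto (fun n => X (φ n) i) atTop (𝓝 (Y i)) := fun i =>
    (tendsto_pi_nhds.1 hlim) i
  have hri : ∀ i, Tendsto (fun n => pr r (1 / ((φ n : ℝ) + 1)) i) atTop (𝓝 (r i)) := by
    intro i
    have hcont : Continuous (fun δ : ℝ => pr r δ i) := by unfold pr; fun_prop
    have := (hcont.tendsto 0).comp hδlim
    have e : pr r 0 i = r i := by unfold pr; ring
    rw [e] at this
    exact this
  refine ⟨Y, ?_, ?_⟩
  · intro i j hij
    have ht : Tendsto (fun n => (1 - pr r (1 / ((φ n : ℝ) + 1)) i) • X (φ n) i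
        + pr r (1 / ((φ n : ℝ) + 1)) i • X (φ n) j) atTop
        (𝓝 ((1 - r i) • Y i + r i • Y j)) :=
      ((tendsto_const_nhds.sub (hri i)).smul (hXi i)).add ((hri i).smul (hXi j))
    have hne : G.Nonempty := hG.int.mono interior_subset
    rw [hG.cpt.isClosed.mem_iff_infDist_zero hne]
    have ht2 := (Metric.continuous_infDist_pt G).tendsto ((1 - r i) • Y i + r i • Y j) |>.comp ht
    have hle : ∀ n, Metric.infDist ((1 - pr r (1 / ((φ n : ℝ) + 1)) i) • X (φ n) i
        + pr r (1 / ((φ n : ℝ) + 1)) i • X (φ n) j) G ≤ 1 / ((φ n : ℝ) + 1) := by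
      intro n
      have hm := hXm (φ n) i j hij
      have hn0 : (0:ℝ) ≤ 1 / ((φ n : ℝ) + 1) := by positivity
      rw [hG.cpt.cthickening_eq_biUnion_closedBall hn0] at hm
      simp only [mem_iUnion] at hm
      obtain ⟨g, hg, hgd⟩ := hm
      exact (Metric.infDist_le_dist_of_mem hg).trans hgd
    apply le_antisymm _ Metric.infDist_nonneg
    exact le_of_tendsto_of_tendsto' ht2 hδlim hle
  · have hd : Tendsto (fun n => det3 (X (φ n))) atTop (𝓝 (det3 Y)) :=
      (continuous_det3.tendsto Y).comp hlim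
    have hd2 : Tendsto (fun n => |det3 (X (φ n))| * (c + 2 * (1 / ((φ n : ℝ) + 1)))) atTop
        (𝓝 (|det3 Y| * (c + 2 * 0))) :=
      hd.abs.mul (tendsto_const_nhds.add (hδlim.const_mul 2))
    have := ge_of_tendsto' hd2 (fun n => hXa (φ n))
    simpa using this

end Pool.Agent.Helper83.AI.Exist
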