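import Pool.Agent.Helper72.AI.Stmts

set_option autoImplicit false

/-! Packet S_lowchord of MP_870acd_co (helper72): lowest chords of a strictly convex figure. -/

namespace Pool.Agent.Helper83.AI.Low

open AffInc Set Filter Topology

lemma nrm_add (θ : ℝ) (p q : ℝ × ℝ) : nrm θ (p + q) = nrm θ p + nrm θ q := by
  simp [nrm]; ring

lemma nrm_sub (θ : ℝ) (p q : ℝ × ℝ) : nrm θ (p - q) = nrm θ p - nrm θ q := by
  simp [nrm]; ring

lemma nrm_smul (θ c : ℝ) (p : ℝ × ℝ) : nrm θ (c • p) = c * nrm θ p := by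
  simp [nrm]; ring

lemma nrm_perp (θ : ℝ) : nrm θ (-Real.sin θ, Real.cos θ) = 1 := by
  simp only [nrm]
  nlinarith [Real.sin_sq_add_cos_sq θ]

lemma continuous_dir : Continuous dir := by unfold dir; fun_prop

lemma continuous_nrm : Continuous (fun q : ℝ × (ℝ × ℝ) => nrm q.1 q.2) := by unfold nrm; fun_prop

lemma tendsto_nrm {α : Type*} {u : Filter α} {f : α → ℝ} {g : α → ℝ × ℝ} {θ : ℝ} {p : ℝ × ℝ}
    (hf : Tendsto f u (𝓝 θ)) (hg : Tendsto g u (𝓝 p)) :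
    Tendsto (fun x => nrm (f x) (g x)) u (𝓝 (nrm θ p)) := by
  unfold nrm
  have h1 : Tendsto (fun x => Real.sin (f x)) u (𝓝 (Real.sin θ)) :=
    (Real.continuous_sin.tendsto θ).comp hf
  have h2 : Tendsto (fun x => Real.cos (f x)) u (𝓝 (Real.cos θ)) :=
    (Real.continuous_cos.tendsto θ).comp hf
  have h3 : Tendsto (fun x => (g x).1) u (𝓝 p.1) := (continuous_fst.tendsto p).comp hg
  have h4 : Tendsto (fun x => (g x).2) u (𝓝 p.2) := (continuous_snd.tendsto p).comp hg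
  exact (h1.neg.mul h3).add (h2.mul h4)

lemma uniq {G : Set (ℝ × ℝ)} (hs : StrictConvex ℝ G) (θ : ℝ) (v : ℝ × ℝ) (P X : ℝ × ℝ)
    (hP : P ∈ G) (hP' : P + v ∈ G) (hX : X ∈ G) (hX' : X + v ∈ G)
    (hmin : ∀ Z ∈ G, Z + v ∈ G → nrm θ P ≤ nrm θ Z) (he : nrm θ X = nrm θ P) : X = P := by
  by_contra hne
  have hM : (1/2:ℝ) • X + (1/2:ℝ) • P ∈ interior G :=
    hs hX hP hne (by norm_num) (by norm_num) (by norm_num)
  have hM' : (1/2:ℝ) • (X + v) + (1/2:ℝ) • (P + v) ∈ interior G :=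
    hs hX' hP' (by simpa using hne) (by norm_num) (by norm_num) (by norm_num)
  obtain ⟨M, hMdef⟩ : ∃ M, M = (1/2:ℝ) • X + (1/2:ℝ) • P := ⟨_, rfl⟩
  have e : (1/2:ℝ) • (X + v) + (1/2:ℝ) • (P + v) = M + v := by
    rw [hMdef]; module
  rw [e] at hM'
  rw [← hMdef] at hM
  obtain ⟨n, hn⟩ : ∃ n : ℝ × ℝ, n = (-Real.sin θ, Real.cos θ) := ⟨_, rfl⟩
  have c1 : ∀ᶠ δ in 𝓝 (0:ℝ), M - δ • n ∈ interior G := by
    have hc : ContinuousAt (fun δ : ℝ => M - δ • n) 0 := by fun_prop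
    exact hc (isOpen_interior.mem_nhds (by simpa using hM))
  have c2 : ∀ᶠ δ in 𝓝 (0:ℝ), M - δ • n + v ∈ interior G := by
    have hc : ContinuousAt (fun δ : ℝ => M - δ • n + v) 0 := by fun_prop
    exact hc (isOpen_interior.mem_nhds (by simpa using hM'))
  obtain ⟨δ, ⟨h1, h2⟩, h3⟩ :=
    (((c1.and c2).filter_mono (nhdsWithin_le_nhds (s := Ioi 0))).and self_mem_nhdsWithin).exists
  have h4 := hmin _ (interior_subset h1) (interior_subset h2)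
  rw [nrm_sub, nrm_smul, hn, nrm_perp, hMdef, nrm_add, nrm_smul, nrm_smul, he] at h4
  have : (0:ℝ) < δ := h3
  linarith

lemma single {G : Set (ℝ × ℝ)} {L : ℝ → ℝ} (hs : StrictConvex ℝ G) (hL : MaxChord G L) (θ : ℝ)
    (P X : ℝ × ℝ) (hP : P ∈ G) (hP' : P + L θ • dir θ ∈ G) (hX : X ∈ G)
    (hX' : X + L θ • dir θ ∈ G) : X = P := by
  by_contra hne
  have hM : (1/2:ℝ) • X + (1/2:ℝ) • P ∈ interior G :=
    hs hX hP hne (by norm_num) (by norm_num) (by norm_num)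
  have hM' : (1/2:ℝ) • (X + L θ • dir θ) + (1/2:ℝ) • (P + L θ • dir θ) ∈ interior G :=
    hs hX' hP' (by simpa using hne) (by norm_num) (by norm_num) (by norm_num)
  obtain ⟨M, hMdef⟩ : ∃ M, M = (1/2:ℝ) • X + (1/2:ℝ) • P := ⟨_, rfl⟩
  have e : (1/2:ℝ) • (X + L θ • dir θ) + (1/2:ℝ) • (P + L θ • dir θ) = M + L θ • dir θ := by
    rw [hMdef]; module
  rw [e] at hM'
  rw [← hMdef] at hM
  have c1 : ∀ᶠ δ in 𝓝 (0:ℝ), M + (L θ + δ) • dir θ ∈ interior G := by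
    have hc : ContinuousAt (fun δ : ℝ => M + (L θ + δ) • dir θ) 0 := by fun_prop
    exact hc (isOpen_interior.mem_nhds (by simpa using hM'))
  obtain ⟨δ, h1, h3⟩ :=
    ((c1.filter_mono (nhdsWithin_le_nhds (s := Ioi 0))).and self_mem_nhdsWithin).exists
  have := hL.le θ (L θ + δ) M (interior_subset hM) (interior_subset h1)
  have h3' : (0:ℝ) < δ := h3
  linarith

lemma nonempty_I {G : Set (ℝ × ℝ)} {L : ℝ → ℝ} (hG : Fig G) (hL : MaxChord G L) (θ a : ℝ)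
    (ha : a ∈ Icc (0:ℝ) 1) : ∃ X ∈ G, X + (a * L θ) • dir θ ∈ G := by
  obtain ⟨X, hX, hX'⟩ := hL.att θ
  refine ⟨X, hX, ?_⟩
  have := hG.cvx hX hX' (show 0 ≤ 1 - a by linarith [ha.2]) ha.1 (by ring)
  convert this using 1
  module

lemma exists_min {G : Set (ℝ × ℝ)} {L : ℝ → ℝ} (hG : Fig G) (hL : MaxChord G L) (θ a : ℝ)
    (ha : a ∈ Icc (0:ℝ) 1) : ∃ P ∈ G, P + (a * L θ) • dir θ ∈ G ∧
      ∀ X ∈ G, X + (a * L θ) • dir θ ∈ G → nrm θ P ≤ nrm θ X := by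
  have hc : IsCompact (G ∩ {X | X + (a * L θ) • dir θ ∈ G}) := by
    apply hG.cpt.inter_right
    exact hG.cpt.isClosed.preimage (by fun_prop : Continuous fun X : ℝ × ℝ => X + (a * L θ) • dir θ)
  obtain ⟨X, hX, hX'⟩ := nonempty_I hG hL θ a ha
  have hcn : Continuous (nrm θ) := by unfold nrm; fun_prop
  obtain ⟨P, hP, hPmin⟩ := hc.exists_isMinOn ⟨X, hX, hX'⟩ hcn.continuousOn
  exact ⟨P, hP.1, hP.2, fun Y hY hY' => hPmin ⟨hY, hY'⟩⟩

lemma limit_min {G : Set (ℝ × ℝ)} {L : ℝ → ℝ} (hs : StrictConvex ℝ G) (hG : Fig G)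
    (hL : MaxChord G L) (P : ℝ × ℝ → ℝ × ℝ)
    (hmin : ∀ θ, ∀ a ∈ Icc (0:ℝ) 1, ∀ X ∈ G, X + (a * L θ) • dir θ ∈ G →
      nrm θ (P (θ, a)) ≤ nrm θ X)
    (θ₀ a₀ : ℝ) (ha₀ : a₀ ∈ Icc (0:ℝ) 1) (ha₁ : a₀ < 1) (u : Filter (ℝ × ℝ)) [u.NeBot]
    (hu : u ≤ 𝓝[univ ×ˢ Icc (0:ℝ) 1] (θ₀, a₀)) (Q : ℝ × ℝ) (hQ : Tendsto P u (𝓝 Q))
    (X : ℝ × ℝ) (hX : X ∈ G) (hX' : X + (a₀ * L θ₀) • dir θ₀ ∈ G) : nrm θ₀ Q ≤ nrm θ₀ X := by
  obtain ⟨Z, hZ, hZ'⟩ := hL.att θ₀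
  -- a second point of the constraint set
  obtain ⟨Z', hZ1, hZ2, hne⟩ : ∃ Z' ∈ G, Z' + (a₀ * L θ₀) • dir θ₀ ∈ G ∧ X ≠ Z' := by
    by_cases h : X = Z
    · refine ⟨Z + ((1 - a₀) * L θ₀) • dir θ₀, ?_, ?_, ?_⟩
      · have := hG.cvx hZ hZ' ha₀.1 (show 0 ≤ 1 - a₀ by linarith [ha₀.2]) (by ring)
        convert this using 1
        module
      · convert hZ' using 1
        module
      · rw [h]
        intro hh
        have h0 : ((1 - a₀) * L θ₀) • dir θ₀ = 0 := by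
          have := hh.symm
          simpa using this
        have h1 : (1 - a₀) * L θ₀ ≠ 0 := (mul_pos (by linarith) (hL.pos θ₀)).ne'
        rcases smul_eq_zero.1 h0 with h2 | h2
        · exact h1 h2
        · simp only [dir, Prod.mk_eq_zero] at h2
          have := Real.sin_sq_add_cos_sq θ₀
          rw [h2.1, h2.2] at this
          norm_num at this
    · refine ⟨Z, hZ, ?_, h⟩
      have := hG.cvx hZ hZ' (show 0 ≤ 1 - a₀ by linarith [ha₀.2]) ha₀.1 (by ring)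
      convert this using 1
      module
  have hθ : Tendsto (fun x : ℝ × ℝ => x.1) u (𝓝 θ₀) :=
    (continuous_fst.tendsto (θ₀, a₀)).comp (hu.trans nhdsWithin_le_nhds)
  have haT : Tendsto (fun x : ℝ × ℝ => x.2) u (𝓝 a₀) :=
    (continuous_snd.tendsto (θ₀, a₀)).comp (hu.trans nhdsWithin_le_nhds)
  have hS : ∀ᶠ x in u, x ∈ (univ ×ˢ Icc (0:ℝ) 1 : Set (ℝ × ℝ)) := hu self_mem_nhdsWithin
  have key : ∀ μ : ℝ, 0 < μ → μ < 1 → nrm θ₀ Q ≤ (1 - μ) * nrm θ₀ X + μ * nrm θ₀ Z' := by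
    intro μ h0 h1
    have i1 : (1 - μ) • X + μ • Z' ∈ interior G := hs hX hZ1 hne (by linarith) h0 (by ring)
    have i2 : (1 - μ) • (X + (a₀ * L θ₀) • dir θ₀) + μ • (Z' + (a₀ * L θ₀) • dir θ₀) ∈
        interior G := hs hX' hZ2 (by simpa using hne) (by linarith) h0 (by ring)
    obtain ⟨M, hMdef⟩ : ∃ M, M = (1 - μ) • X + μ • Z' := ⟨_, rfl⟩
    have e : (1 - μ) • (X + (a₀ * L θ₀) • dir θ₀) + μ • (Z' + (a₀ * L θ₀) • dir θ₀) =
        M + (a₀ * L θ₀) • dir θ₀ := by rw [hMdef]; module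
    rw [e] at i2
    rw [← hMdef] at i1
    have t1 : Tendsto (fun x : ℝ × ℝ => M + (x.2 * L x.1) • dir x.1) u
        (𝓝 (M + (a₀ * L θ₀) • dir θ₀)) := by
      apply tendsto_const_nhds.add
      apply Tendsto.smul
      · exact haT.mul ((hL.cont.tendsto _).comp hθ)
      · exact (continuous_dir.tendsto _).comp hθ
    have e1 : ∀ᶠ x in u, M + (x.2 * L x.1) • dir x.1 ∈ interior G :=
      t1 (isOpen_interior.mem_nhds i2)
    have e2 : ∀ᶠ x in u, nrm x.1 (P x) ≤ nrm x.1 M := by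
      filter_upwards [e1, hS] with x hx hxS
      exact hmin x.1 x.2 hxS.2 M (interior_subset i1) (interior_subset hx)
    have t2 : Tendsto (fun x : ℝ × ℝ => nrm x.1 (P x)) u (𝓝 (nrm θ₀ Q)) :=
      tendsto_nrm hθ hQ
    have t3 : Tendsto (fun x : ℝ × ℝ => nrm x.1 M) u (𝓝 (nrm θ₀ M)) :=
      tendsto_nrm hθ tendsto_const_nhds
    have := le_of_tendsto_of_tendsto t2 t3 e2
    rw [hMdef, nrm_add, nrm_smul, nrm_smul] at this
    exact this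
  -- let μ → 0
  have t4 : Tendsto (fun μ : ℝ => (1 - μ) * nrm θ₀ X + μ * nrm θ₀ Z') (𝓝[>] 0)
      (𝓝 (nrm θ₀ X)) := by
    have : ContinuousAt (fun μ : ℝ => (1 - μ) * nrm θ₀ X + μ * nrm θ₀ Z') 0 := by fun_prop
    have h := this.tendsto
    simp only [sub_zero, one_mul, zero_mul, add_zero] at h
    exact h.mono_left nhdsWithin_le_nhds
  refine ge_of_tendsto t4 ?_
  filter_upwards [Ioo_mem_nhdsGT (show (0:ℝ) < 1 by norm_num)] with μ hμ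
  exact key μ hμ.1 hμ.2

theorem pf_S_lowchord : AffInc.S_lowchord := by
  intro G L hs hG hL
  have hex : ∀ x : ℝ × ℝ, ∃ P : ℝ × ℝ, x.2 ∈ Icc (0:ℝ) 1 → (P ∈ G ∧ P + (x.2 * L x.1) • dir x.1 ∈ G ∧
      ∀ X ∈ G, X + (x.2 * L x.1) • dir x.1 ∈ G → nrm x.1 P ≤ nrm x.1 X) := by
    intro x
    by_cases hx : x.2 ∈ Icc (0:ℝ) 1
    · obtain ⟨P, h1, h2, h3⟩ := exists_min hG hL x.1 x.2 hx
      exact ⟨P, fun _ => ⟨h1, h2, h3⟩⟩
    · exact ⟨0, fun h => absurd h hx⟩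
  choose P hP using hex
  have hmem : ∀ θ, ∀ a ∈ Icc (0:ℝ) 1, P (θ, a) ∈ G := fun θ a ha => (hP (θ, a) ha).1
  have hmem' : ∀ θ, ∀ a ∈ Icc (0:ℝ) 1, P (θ, a) + (a * L θ) • dir θ ∈ G :=
    fun θ a ha => (hP (θ, a) ha).2.1
  have hmin : ∀ θ, ∀ a ∈ Icc (0:ℝ) 1, ∀ X ∈ G, X + (a * L θ) • dir θ ∈ G →
      nrm θ (P (θ, a)) ≤ nrm θ X := fun θ a ha => (hP (θ, a) ha).2.2
  have huniq : ∀ θ, ∀ a ∈ Icc (0:ℝ) 1, ∀ X ∈ G, X + (a * L θ) • dir θ ∈ G →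
      nrm θ X = nrm θ (P (θ, a)) → X = P (θ, a) := by
    intro θ a ha X hX hX' he
    exact uniq hs θ _ _ _ (hmem θ a ha) (hmem' θ a ha) hX hX' (hmin θ a ha) he
  refine ⟨P, ?_, hmem, hmem', fun θ a ha X hX hX' => ⟨hmin θ a ha X hX hX', huniq θ a ha X hX hX'⟩,
    ?_⟩
  · rintro ⟨θ₀, a₀⟩ hx₀
    have ha₀ : a₀ ∈ Icc (0:ℝ) 1 := hx₀.2
    rw [ContinuousWithinAt, tendsto_iff_ultrafilter]
    intro u hu
    have hS : ∀ᶠ x in (u : Filter (ℝ × ℝ)), x ∈ (univ ×ˢ Icc (0:ℝ) 1 : Set (ℝ × ℝ)) :=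
      hu self_mem_nhdsWithin
    have hG' : ∀ᶠ x in (u : Filter (ℝ × ℝ)), P x ∈ G := by
      filter_upwards [hS] with x hx
      exact hmem x.1 x.2 hx.2
    obtain ⟨Q, hQG, hQ⟩ := hG.cpt.ultrafilter_le_nhds (u.map P) (by
      rw [le_principal_iff]; exact hG')
    have hQ' : Tendsto P u (𝓝 Q) := hQ
    have hθ : Tendsto (fun x : ℝ × ℝ => x.1) (u : Filter (ℝ × ℝ)) (𝓝 θ₀) :=
      (continuous_fst.tendsto (θ₀, a₀)).comp (hu.trans nhdsWithin_le_nhds)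
    have haT : Tendsto (fun x : ℝ × ℝ => x.2) (u : Filter (ℝ × ℝ)) (𝓝 a₀) :=
      (continuous_snd.tendsto (θ₀, a₀)).comp (hu.trans nhdsWithin_le_nhds)
    have t1 : Tendsto (fun x : ℝ × ℝ => P x + (x.2 * L x.1) • dir x.1) (u : Filter (ℝ × ℝ))
        (𝓝 (Q + (a₀ * L θ₀) • dir θ₀)) := by
      apply hQ'.add
      apply Tendsto.smul
      · exact haT.mul ((hL.cont.tendsto _).comp hθ)
      · exact (continuous_dir.tendsto _).comp hθ
    have hQ2 : Q + (a₀ * L θ₀) • dir θ₀ ∈ G := by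
      refine hG.cpt.isClosed.mem_of_tendsto t1 ?_
      filter_upwards [hS] with x hx
      exact hmem' x.1 x.2 hx.2
    have hQP : Q = P (θ₀, a₀) := by
      rcases lt_or_eq_of_le ha₀.2 with h1 | h1
      · have hle : nrm θ₀ Q ≤ nrm θ₀ (P (θ₀, a₀)) :=
          limit_min hs hG hL P hmin θ₀ a₀ ha₀ h1 u hu Q hQ' _ (hmem _ _ ha₀) (hmem' _ _ ha₀)
        have hge : nrm θ₀ (P (θ₀, a₀)) ≤ nrm θ₀ Q := hmin θ₀ a₀ ha₀ Q hQG hQ2
        exact huniq θ₀ a₀ ha₀ Q hQG hQ2 (le_antisymm hle hge)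
      · have h2 := hmem' θ₀ a₀ ha₀
        subst h1
        rw [one_mul] at hQ2 h2
        exact single hs hL θ₀ _ _ (hmem _ _ ha₀) h2 hQG hQ2
    rw [← hQP]
    exact hQ'
  · intro θ a ha
    have hL2 : L (θ + 2 * Real.pi) = L θ := by
      have h1 := hL.per θ
      have h2 := hL.per (θ + Real.pi)
      rw [show θ + 2 * Real.pi = θ + Real.pi + Real.pi by ring, h2, h1]
    have hdir : dir (θ + 2 * Real.pi) = dir θ := by
      simp [dir, Real.cos_add_two_pi, Real.sin_add_two_pi]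
    have hnrm : ∀ p, nrm (θ + 2 * Real.pi) p = nrm θ p := by
      intro p
      simp [nrm, Real.cos_add_two_pi, Real.sin_add_two_pi]
    have g1 := hmem (θ + 2 * Real.pi) a ha
    have g2 := hmem' (θ + 2 * Real.pi) a ha
    rw [hL2, hdir] at g2
    apply huniq θ a ha _ g1 g2
    apply le_antisymm
    · have := hmin (θ + 2 * Real.pi) a ha (P (θ, a)) (hmem θ a ha) (by
        rw [hL2, hdir]; exact hmem' θ a ha)
      rw [hnrm, hnrm] at this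
      exact this
    · exact hmin θ a ha _ g1 g2

end Pool.Agent.Helper83.AI.Low
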